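import Mathlib
import Pool.Agent.Helper94_CTD.EStmts
import Pool.Agent.Helper94_CTD.PA

/-!
# Tools for the model part of the squad CTD
-/

open Set

namespace Pool.Agent.CTD.H50

open Pool.Agent.FL

section flt

variable {B : Type 1} [CompleteBooleanAlgebra B] {G : Set B}

theorem not_compl (hG : Flt G) {b : B} (h : b ∈ G) : bᶜ ∉ G := by
  intro h'
  have := hG.inf b h _ h'
  rw [inf_compl_self] at this
  exact hG.bot this

theorem bihimp_mp (hG : Flt G) {a b : B} (h : bihimp a b ∈ G) (ha : a ∈ G) : b ∈ G := by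
  refine hG.up _ (hG.inf _ ha _ h) _ ?_
  have h1 : bihimp a b ≤ a ⇨ b := by
    rw [bihimp]; exact inf_le_right
  calc a ⊓ bihimp a b ≤ a ⊓ (a ⇨ b) := inf_le_inf_left _ h1
    _ ≤ b := by rw [inf_himp]; exact inf_le_right

theorem bihimp_iff (hG : Flt G) {a b : B} (h : bihimp a b ∈ G) : a ∈ G ↔ b ∈ G :=
  ⟨bihimp_mp hG h, bihimp_mp hG (by rwa [bihimp_comm] at h)⟩

theorem bihimp_mem (hG : Flt G) {a b : B} (ha : a ∈ G ∨ aᶜ ∈ G) (hb : b ∈ G ∨ bᶜ ∈ G)
    (h : a ∈ G ↔ b ∈ G) : bihimp a b ∈ G := by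
  rcases ha with ha | ha
  · have hb' := h.1 ha
    refine hG.up _ (hG.inf _ ha _ hb') _ ?_
    rw [bihimp]
    exact le_inf (le_himp_iff.2 (by
      exact inf_le_left.trans inf_le_left)) (le_himp_iff.2 (by
      exact inf_le_left.trans inf_le_right))
  · have hb' : bᶜ ∈ G := by
      rcases hb with hb | hb
      · exact absurd ha (not_compl hG (h.2 hb))
      · exact hb
    refine hG.up _ (hG.inf _ ha _ hb') _ ?_
    rw [bihimp]
    refine le_inf (le_himp_iff.2 ?_) (le_himp_iff.2 ?_)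
    · calc aᶜ ⊓ bᶜ ⊓ b ≤ bᶜ ⊓ b := inf_le_inf_right _ inf_le_right
        _ = ⊥ := compl_inf_self _
        _ ≤ a := bot_le
    · calc aᶜ ⊓ bᶜ ⊓ a ≤ aᶜ ⊓ a := inf_le_inf_right _ inf_le_left
        _ = ⊥ := compl_inf_self _
        _ ≤ b := bot_le

theorem agr_mem (hG : Flt G) {T : Type*} {K : Finset T} {z z' : T → B} (h : agr K z z' ∈ G)
    {t : T} (ht : t ∈ K) : z t ∈ G ↔ z' t ∈ G :=
  bihimp_iff hG (hG.up _ h _ (iInf₂_le t ht))

theorem agr_comm {T : Type*} (K : Finset T) (z z' : T → B) : agr K z z' = agr K z' z := by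
  unfold agr
  congr 1; ext t; congr 1; ext _
  exact bihimp_comm _ _

theorem bihimp_trans (a b c : B) : bihimp a b ⊓ bihimp b c ≤ bihimp a c := by
  rw [bihimp, bihimp, bihimp]
  refine le_inf ?_ ?_
  · calc (b ⇨ a) ⊓ (a ⇨ b) ⊓ ((c ⇨ b) ⊓ (b ⇨ c)) ≤ (c ⇨ b) ⊓ (b ⇨ a) :=
        le_inf (inf_le_right.trans inf_le_left) (inf_le_left.trans inf_le_left)
      _ ≤ c ⇨ a := himp_triangle _ _ _
  · calc (b ⇨ a) ⊓ (a ⇨ b) ⊓ ((c ⇨ b) ⊓ (b ⇨ c)) ≤ (a ⇨ b) ⊓ (b ⇨ c) :=
        le_inf (inf_le_left.trans inf_le_right) (inf_le_right.trans inf_le_right)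
      _ ≤ a ⇨ c := himp_triangle _ _ _

theorem agr_trans {T : Type*} (K : Finset T) (x y z : T → B) :
    agr K x y ⊓ agr K y z ≤ agr K x z := by
  refine le_iInf₂ fun t ht => ?_
  exact (inf_le_inf (iInf₂_le t ht) (iInf₂_le t ht)).trans (bihimp_trans _ _ _)

theorem IsX_congr {T I : Type*} (F : I → T → B) (z z' : T → B) :
    (⨅ t, bihimp (z t) (z' t)) ⊓ IsX F z ≤ IsX F z' := by
  refine le_iInf fun K => ?_
  calc (⨅ t, bihimp (z t) (z' t)) ⊓ IsX F z
      ≤ agr K z' z ⊓ ⨆ b, agr K z (F b) := by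
        refine inf_le_inf ?_ (iInf_le _ K)
        refine le_iInf₂ fun t _ => ?_
        rw [bihimp_comm]
        exact iInf_le _ t
    _ = ⨆ b, agr K z' z ⊓ agr K z (F b) := inf_iSup_eq _ _
    _ ≤ ⨆ b, agr K z' (F b) := iSup_mono fun b => agr_trans K _ _ _

end flt

section gen

variable {ι W : Type*} {B : Type 1} [CompleteBooleanAlgebra B] {V : ι → List W → W → B} {H : Set W}
  {G : Set B}

/-- Witnesses. -/
theorem wit (hF : Flt G) (hG : Gen V H G) (i : ι) (l : List W) (hl : ∀ x ∈ l, x ∈ H) {c : B}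
    (hc : c ∈ G) (hle : c ≤ ⨆ w, V i l w) : ∃ w ∈ H, V i l w ∈ G := by
  rcases hG i l hl with h | h
  · exact absurd h (not_compl hF (hF.up _ hc _ hle))
  · exact h

/-- Decisions. -/
theorem wdec (hG : Gen V H G) (hF : Flt G) (i : ι) (l : List W) (hl : ∀ x ∈ l, x ∈ H) :
    (⨆ w, V i l w) ∈ G ∨ (⨆ w, V i l w)ᶜ ∈ G := by
  rcases hG i l hl with h | ⟨w, _, h⟩
  · exact Or.inr h
  · exact Or.inl (hF.up _ h _ (le_iSup (fun w => V i l w) w))

end gen

section mod

variable {B : Type 1} [CompleteBooleanAlgebra B]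

instance : Inhabited (Wd B) := ⟨⟨.mk PEmpty (fun x => x.elim) (fun x => x.elim), 0,
  fun _ => false, fun _ => ⊥, ∅⟩⟩

/-- A default element with given name. -/
def wnm (a : BSet B) : Wd B := { (default : Wd B) with nm := a }
/-- A default element with given ordinal. -/
noncomputable def wth (a : Th) : Wd B := { (default : Wd B) with th := a }
/-- A default element with given branch. -/
noncomputable def wbr (a : Br) : Wd B := { (default : Wd B) with br := a }

theorem Gen.comp' {ι ι' W : Type*} {V : ι → List W → W → B} {H : Set W} {G : Set B}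
    (h : Gen V H G) (f : ι' → ι) : Gen (fun i => V (f i)) H G := fun i => h (f i)

/-- Operations: every value of an operation on parameters of the hull occurs in the hull. -/
theorem opmem {ι W X : Type*} {V : ι → List W → W → B} {H : Set W} {G : Set B} (hF : Flt G)
    (hG : Gen V H G) (i : ι) (l : List W) (hl : ∀ x ∈ l, x ∈ H) (pr : W → X) (x : X) (w0 : W)
    (hV1 : V i l w0 = ⊤) (hV : ∀ w, pr w ≠ x → V i l w = ⊥) :
    ∃ w ∈ H, pr w = x := by
  obtain ⟨w, hw, h⟩ := wit hF hG i l hl hF.top (hV1 ▸ le_iSup (fun w => V i l w) w0)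
  refine ⟨w, hw, ?_⟩
  by_contra hne
  rw [hV w hne] at h
  exact hF.bot h

theorem Mod.of {C : ∀ (_ : Set (Wd B)) (_ : Set B) (M : Type) (_ : M → M → Prop)
    (_ : BSet B → M), Prop} {ι : Type} [Countable ι] [Nonempty ι]
    (V : ι → List (Wd B) → Wd B → B)
    (h : ∀ H G (M : Type) (E : M → M → Prop) π, Base H G E π → Gen V H G → C H G M E π) :
    Mod B C := by
  obtain ⟨f, hf⟩ := exists_surjective_nat ι
  refine ⟨fun n => V (f n), fun H G M E π hB hG => h H G M E π hB fun i l hl => ?_⟩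
  obtain ⟨n, rfl⟩ := hf i
  exact hG n l hl

theorem Mod.use {C C' : ∀ (_ : Set (Wd B)) (_ : Set B) (M : Type) (_ : M → M → Prop)
    (_ : BSet B → M), Prop} {ι : Type} [Countable ι]
    (hC : Mod B C) (V : ι → List (Wd B) → Wd B → B)
    (h : ∀ H G (M : Type) (E : M → M → Prop) π, Base H G E π → C H G M E π → Gen V H G →
      C' H G M E π) : Mod B C' := by
  obtain ⟨V0, h0⟩ := hC
  refine Mod.of (ι := ℕ ⊕ ι) (fun i => Sum.elim V0 V i) fun H G M E π hB hG => ?_
  exact h H G M E π hB (h0 H G M E π hB (Gen.comp' hG Sum.inl)) (Gen.comp' hG Sum.inr)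

theorem Mod.and {C C' : ∀ (_ : Set (Wd B)) (_ : Set B) (M : Type) (_ : M → M → Prop)
    (_ : BSet B → M), Prop} (hC : Mod B C) (hC' : Mod B C') :
    Mod B (fun H G M E π => C H G M E π ∧ C' H G M E π) := by
  obtain ⟨V0, h0⟩ := hC'
  refine Mod.use hC V0 fun H G M E π hB h hG => ⟨h, h0 H G M E π hB hG⟩

end mod

section base

variable {B : Type 1} [CompleteBooleanAlgebra B] {H : Set (Wd B)} {G : Set B} {M : Type}
  {E : M → M → Prop} {π : BSet B → M}

/-- Elements of the hull for the finite subsets of `w2`. -/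
theorem exists_list (hB : Base H G E π) (K : Finset M) (hK : ∀ t ∈ K, E t (π W2n)) :
    ∃ ks : List (Wd B), (∀ k ∈ ks, k ∈ H) ∧ ∀ t ∈ K, ∃ k ∈ ks, t = π (chk k.th) := by
  classical
  have h1 : ∀ t : K, ∃ k ∈ H, t.1 = π (chk k.th) := by
    intro t
    obtain ⟨α, ⟨w, hw, rfl⟩, h⟩ := (hB.memW2 t.1).1 (hK t.1 t.2)
    exact ⟨w, hw, h⟩
  choose f hf hf' using h1
  refine ⟨K.attach.toList.map f, ?_, ?_⟩
  · intro k hk
    obtain ⟨t, _, rfl⟩ := List.mem_map.1 hk
    exact hf t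
  · intro t ht
    exact ⟨f ⟨t, ht⟩, List.mem_map.2 ⟨⟨t, ht⟩, by simp, rfl⟩, hf' ⟨t, ht⟩⟩

open Classical in
/-- The finite set of the ordinals of a list. -/
noncomputable def kf (ks : List (Wd B)) : Finset Th := (ks.map Wd.th).toFinset

omit [CompleteBooleanAlgebra B] in
theorem mem_kf {ks : List (Wd B)} {k : Wd B} (h : k ∈ ks) : k.th ∈ kf ks := by
  classical
  unfold kf
  rw [List.mem_toFinset]
  exact List.mem_map.2 ⟨k, h, rfl⟩

/-- The value of a function. -/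
theorem fun_val (h3 : E3De) (hB : Base H G E π) {g a b x : M} (hg : IsFun E g a b)
    (hx : E x a) : ∃ y, App E g x y ∧ E y b ∧ ∀ y', App E g x y' → y' = y := by
  obtain ⟨e1, e2, _, _, _⟩ := h3 B H G M E π hB
  obtain ⟨y, hy, huniq⟩ := hg.2 x hx
  refine ⟨y, hy, ?_, huniq⟩
  obtain ⟨p, hp, hpair⟩ := hy
  obtain ⟨x', y', _, hy', hp'⟩ := hg.1 p hp
  obtain ⟨_, rfl⟩ := e2 p x y x' y' hpair hp'
  exact hy'

end base

end Pool.Agent.CTD.H50
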