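import Mathlib
import Pool.Agent.Helper50_CTD.ETools

/-!
# E10: the density of the space
-/

open Set

namespace Pool.Agent.CTD.H50

open Pool.Agent.FL

section

variable {B : Type 1} [CompleteBooleanAlgebra B]

open Classical in
/-- the family -/
noncomputable def V10 (F : Br → Th → B) (α0 : Th) (d : Th → Br) :
    Fin 5 → List (Wd B) → Wd B → B
  | 0, _, w => if w.th = α0 then ⊤ else ⊥
  | 1, _, w => if w.nm = Dn F α0 d then ⊤ else ⊥
  | 2, l, w => if w.br = d (l.getD 0 default).th then ⊤ else ⊥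
  | 3, l, w => if w.th < α0 then beq (l.getD 0 default).nm (CTD.pt (F (d w.th))) else ⊥
  | 4, l, w => if w.th < α0 then agr (kf l.tail) (tr (l.getD 0 default).nm) (F (d w.th)) else ⊥

open Classical in
/-- the injection -/
noncomputable def R10 (J : Th → Th → Th → B) (α β ξ : Th) : B :=
  if β < α ∧ ξ < o1 then J α β ξ else ⊥

theorem e10 (h1 : E1Nm) (h3 : E3De) (h5 : E5In) (h7 : E7Xb) : E10Dn := by
  intro B _ F α0 d J hS
  refine Mod.use (Mod.and (h7 B F) (h5 B (fun i => CTD.pt (F (d i))) (R10 J) o1)) (V10 F α0 d)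
    fun H G M E π hB hXI hG => ?_
  obtain ⟨hX, hI⟩ := hXI
  obtain ⟨-, hW2, -, -, hpt, -, -, -, hDn, -, hbeq, -⟩ := h1 B
  obtain ⟨brefl, -⟩ := pa1.{1} B
  obtain ⟨e1, e2, eapp, eagr, eext⟩ := h3 B H G M E π hB
  have hα0 : HT H α0 := opmem hB.flt hG 0 [] (by simp) Wd.th α0 (wth α0)
    (by simp [V10, wth]) (fun w hw => if_neg hw)
  have hD : HN H (Dn F α0 d) := opmem hB.flt hG 1 [] (by simp) Wd.nm (Dn F α0 d)
    (wnm (Dn F α0 d)) (by simp [V10, wnm]) (fun w hw => if_neg hw)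
  have hbr : ∀ β, HT H β → HB H (d β) := by
    rintro β ⟨u, hu, rfl⟩
    exact opmem hB.flt hG 2 [u] (by intro x hx; rw [List.mem_singleton.1 hx]; exact hu) Wd.br
      (d u.th) (wbr (d u.th)) (by simp [V10, wbr]) (fun w hw => if_neg hw)
  have memD : ∀ m, E m (π (Dn F α0 d)) ↔ ∃ β, HT H β ∧ β < α0 ∧ m = π (CTD.pt (F (d β))) := by
    intro m
    obtain ⟨a, ⟨wa, hwa, rfl⟩, rfl⟩ := hB.surj m
    rw [hB.mem _ _ ⟨wa, hwa, rfl⟩ hD, hDn]
    constructor
    · intro h
      obtain ⟨w, hw, hwG⟩ := wit hB.flt hG 3 [wa] (by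
        intro x hx; rw [List.mem_singleton.1 hx]; exact hwa) h (by
          refine iSup₂_le fun i hi => ?_
          refine le_trans ?_ (le_iSup (fun w => V10 F α0 d 3 [wa] w) (wth i))
          simp [V10, wth, hi])
      simp only [V10, List.getD_cons_zero] at hwG
      by_cases hlt : w.th < α0
      · rw [if_pos hlt] at hwG
        have hth : HT H w.th := ⟨w, hw, rfl⟩
        exact ⟨w.th, hth, hlt, (hB.eqv _ _ ⟨wa, hwa, rfl⟩ (hX.ptF _ (hbr _ hth))).2 hwG⟩
      · rw [if_neg hlt] at hwG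
        exact absurd hwG hB.flt.bot
    · rintro ⟨β, hβ, hlt, h⟩
      have h' := (hB.eqv _ _ ⟨wa, hwa, rfl⟩ (hX.ptF _ (hbr _ hβ))).1 h
      exact hB.flt.up _ h' _ (le_iSup₂ (f := fun i (_ : i < α0) =>
        beq wa.nm (CTD.pt (F (d i)))) β hlt)
  refine ⟨π (Dn F α0 d), ?_, ?_, ?_⟩
  · intro m hm
    obtain ⟨β, hβ, hlt, rfl⟩ := (memD m).1 hm
    exact hX.memF _ (hbr _ hβ)
  · refine hI α0 hα0 ?_ ?_ ?_ ?_ ?_ _ _ memD (fun m => hB.memchk o1 hB.o1 m)
    · intro β hβ
      rw [← hS.j1 α0 β hβ]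
      refine iSup_congr fun ξ => iSup_congr fun hξ => ?_
      simp [R10, hβ, hξ]
    · intro β ξ h
      unfold R10 at h
      by_contra hn
      exact h (if_neg hn)
    · intro β ξ ξ' hne
      refine le_bot_iff.1 ((inf_le_inf ?_ ?_).trans (hS.j2 α0 β ξ ξ' hne).le)
      · unfold R10; split_ifs <;> simp
      · unfold R10; split_ifs <;> simp
    · intro β β' ξ hne
      refine le_bot_iff.1 ((inf_le_inf ?_ ?_).trans (hS.j3 α0 β β' ξ hne).le)
      · unfold R10; split_ifs <;> simp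
      · unfold R10; split_ifs <;> simp
    · intro β hβ β' hβ' hne
      rw [hbeq]
      obtain ⟨α, hα⟩ := hS.p1 (d β) (d β') (fun h => hne (hS.dinj β hβ β' hβ' h))
      exact le_bot_iff.1 (hα ▸ iInf_le _ α)
  · intro x hx
    obtain ⟨a, ⟨wa, hwa, rfl⟩, rfl⟩ := hB.surj x
    have hwN : HN H wa.nm := ⟨wa, hwa, rfl⟩
    obtain ⟨hsub, hisX⟩ := (hX.mem _ hwN).1 hx
    refine ⟨hsub, fun K hK => ?_⟩
    obtain ⟨ks, hks, hks'⟩ := exists_list hB K hK
    have hc : (⨆ b, agr (kf ks) (tr wa.nm) (F b)) ∈ G := hB.flt.up _ hisX _ (iInf_le _ (kf ks))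
    obtain ⟨w, hw, hwG⟩ := wit hB.flt hG 4 (wa :: ks) (by
      intro x hx
      rcases List.mem_cons.1 hx with rfl | hx
      · exact hwa
      · exact hks x hx) hc (by
        refine iSup_le fun b => ?_
        calc agr (kf ks) (tr wa.nm) (F b)
            = agr (kf ks) (tr wa.nm) (F b) ⊓
              ⨆ i, ⨆ _ : i < α0, agr (kf ks) (F b) (F (d i)) := by
              rw [hS.p2 b (kf ks), inf_top_eq]
          _ = ⨆ i, ⨆ _ : i < α0, agr (kf ks) (tr wa.nm) (F b) ⊓
              agr (kf ks) (F b) (F (d i)) := by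
              rw [inf_iSup_eq]
              refine iSup_congr fun i => ?_
              rw [inf_iSup_eq]
          _ ≤ ⨆ w, V10 F α0 d 4 (wa :: ks) w := by
              refine iSup₂_le fun i hi => ?_
              refine (agr_trans _ _ _ _).trans ?_
              refine le_trans ?_ (le_iSup (fun w => V10 F α0 d 4 (wa :: ks) w) (wth i))
              simp [V10, wth, hi])
    simp only [V10, List.getD_cons_zero, List.tail_cons] at hwG
    by_cases hlt : w.th < α0
    · rw [if_pos hlt] at hwG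
      have hth : HT H w.th := ⟨w, hw, rfl⟩
      refine ⟨π (CTD.pt (F (d w.th))), (memD _).2 ⟨w.th, hth, hlt, rfl⟩, fun t ht => ?_⟩
      obtain ⟨k, hk, rfl⟩ := hks' t ht
      have hkH : HT H k.th := ⟨k, hks k hk, rfl⟩
      rw [hB.mem _ _ (hB.chk _ hkH) hwN, hB.mem _ _ (hB.chk _ hkH) (hX.ptF _ (hbr _ hth)), hpt]
      exact agr_mem hB.flt hwG (mem_kf hk)
    · rw [if_neg hlt] at hwG
      exact absurd hwG hB.flt.bot

end

end Pool.Agent.CTD.H50
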