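import Mathlib
import Pool.Agent.Helper50_CTD.ETools

/-!
# E11: there is no free sequence
-/

open Set

namespace Pool.Agent.CTD.H50

open Pool.Agent.FL

section

variable {B : Type 1} [CompleteBooleanAlgebra B]

/-- the trace of the values of the function -/
noncomputable def y11 (g : BSet B) (β α : Th) : B :=
  ⨆ x : BSet B, bmem (opr (CTD.chk β) x) g ⊓ bmem (CTD.chk α) x

/-- the property of `α` and `z` -/
noncomputable def T11 (F : Br → Th → B) (g : BSet B) (α : Th) (z : Th → B) : B :=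
  IsX F z ⊓ (⨅ K : Finset Th, ⨆ β, ⨆ _ : β < α, agr K z (y11 g β)) ⊓
    (⨅ K : Finset Th, ⨆ β, ⨆ _ : α ≤ β, agr K z (y11 g β))

open Classical in
/-- the family -/
noncomputable def V11 (F : Br → Th → B) : Fin 6 → List (Wd B) → Wd B → B
  | 0, l, w => bmem (opr (CTD.chk (l.getD 1 default).th) w.nm) (l.getD 0 default).nm ⊓
      bmem (CTD.chk (l.getD 2 default).th) w.nm
  | 1, l, w => (bihimp (tr (l.getD 1 default).nm w.th)
      (y11 (l.getD 0 default).nm (l.getD 2 default).th w.th))ᶜ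
  | 2, l, w => (IsX F (y11 (l.getD 0 default).nm w.th))ᶜ
  | 3, l, w => T11 F (l.getD 0 default).nm w.th w.zz
  | 4, l, w => if w.th < (l.getD 1 default).th then
      agr (kf l.tail.tail.tail) (l.getD 2 default).zz (y11 (l.getD 0 default).nm w.th) else ⊥
  | 5, l, w => if (l.getD 1 default).th ≤ w.th then
      agr (kf l.tail.tail.tail) (l.getD 2 default).zz (y11 (l.getD 0 default).nm w.th) else ⊥

theorem e11 (h1 : E1Nm) (h3 : E3De) (h7 : E7Xb) : E11Fr := by
  intro B _ F α0 d J hS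
  refine Mod.use (h7 B F) (V11 F) fun H G M E π hB hX hG g0 hg => ?_
  obtain ⟨-, hW2, -, hpt', hpt, -, -, -, -, -, -, -⟩ := h1 B
  obtain ⟨e1, e2, eapp, eagr, eext⟩ := h3 B H G M E π hB
  obtain ⟨gn, ⟨wg, hwg, rfl⟩, rfl⟩ := hB.surj g0
  have hgN : HN H wg.nm := ⟨wg, hwg, rfl⟩
  have chkW : ∀ β, HT H β → E (π (CTD.chk β)) (π W2n) := fun β hβ => (hB.memW2 _).2 ⟨β, hβ, rfl⟩
  -- values
  have key : ∀ β, HT H β → ∃ a, HN H a ∧ App E (π wg.nm) (π (CTD.chk β)) (π a) ∧
      E (π a) (π (Xn F)) ∧ ∀ α, HT H α → (E (π (CTD.chk α)) (π a) ↔ y11 wg.nm β α ∈ G) := by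
    intro β hβ
    obtain ⟨v, hv, hvX, hvu⟩ := fun_val h3 hB hg (chkW β hβ)
    obtain ⟨a, ha, rfl⟩ := hB.surj v
    refine ⟨a, ha, hv, hvX, fun α hα => ⟨fun hE => ?_, fun hy => ?_⟩⟩
    · have e3 := (hB.mem _ _ (hB.chk α hα) ha).1 hE
      have e4 := (eapp _ _ _ hgN (hB.chk β hβ) ha).1 hv
      refine hB.flt.up _ (hB.flt.inf _ e4 _ e3) _ ?_
      exact le_iSup (fun x => bmem (opr (CTD.chk β) x) wg.nm ⊓ bmem (CTD.chk α) x) a
    · obtain ⟨wα, hwα, rfl⟩ := hα
      obtain ⟨wβ, hwβ, rfl⟩ := hβ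
      obtain ⟨x, hx, hxG⟩ := wit hB.flt hG 0 [wg, wβ, wα] (by
        intro x hx
        simp only [List.mem_cons, List.not_mem_nil, or_false] at hx
        rcases hx with rfl | rfl | rfl <;> assumption) hy (by
          refine iSup_le fun a => ?_
          exact le_iSup (fun w => V11 F 0 [wg, wβ, wα] w) (wnm a))
      simp only [V11, List.getD_cons_zero, List.getD_cons_succ] at hxG
      have hxN : HN H x.nm := ⟨x, hx, rfl⟩
      have e4 := (eapp _ _ _ hgN (hB.chk wβ.th ⟨wβ, hwβ, rfl⟩) hxN).2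
        (hB.flt.up _ hxG _ inf_le_left)
      have e5 := (hB.mem _ _ (hB.chk wα.th ⟨wα, hwα, rfl⟩) hxN).2
        (hB.flt.up _ hxG _ inf_le_right)
      rw [hvu _ e4] at e5
      exact e5
  have ydec : ∀ β α, HT H β → HT H α → y11 wg.nm β α ∈ G ∨ (y11 wg.nm β α)ᶜ ∈ G := by
    rintro _ _ ⟨wβ, hwβ, rfl⟩ ⟨wα, hwα, rfl⟩
    have hl : ∀ x ∈ [wg, wβ, wα], x ∈ H := by
      intro x hx
      simp only [List.mem_cons, List.not_mem_nil, or_false] at hx
      rcases hx with rfl | rfl | rfl <;> assumption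
    have he : (⨆ w, V11 F 0 [wg, wβ, wα] w) = y11 wg.nm wβ.th wα.th := by
      refine le_antisymm (iSup_le fun w => ?_) (iSup_le fun a => ?_)
      · exact le_iSup (fun x => bmem (opr (CTD.chk wβ.th) x) wg.nm ⊓ bmem (CTD.chk wα.th) x) w.nm
      · exact le_iSup (fun w => V11 F 0 [wg, wβ, wα] w) (wnm a)
    have := wdec hG hB.flt 0 [wg, wβ, wα] hl
    rwa [he] at this
  -- the values are in the space
  have yX : ∀ β, HT H β → IsX F (y11 wg.nm β) ∈ G := by
    intro β hβ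
    obtain ⟨a, ⟨wa, hwa, rfl⟩, hav, haX, hay⟩ := key β hβ
    have haN : HN H wa.nm := ⟨wa, hwa, rfl⟩
    have hX1 := ((hX.mem _ haN).1 haX).2
    obtain ⟨wβ, hwβ, rfl⟩ := hβ
    have hl : ∀ x ∈ [wg, wa, wβ], x ∈ H := by
      intro x hx
      simp only [List.mem_cons, List.not_mem_nil, or_false] at hx
      rcases hx with rfl | rfl | rfl <;> assumption
    have hall : (⨅ t, bihimp (tr wa.nm t) (y11 wg.nm wβ.th t)) ∈ G := by
      rcases hG 1 [wg, wa, wβ] hl with h | ⟨w, hw, h⟩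
      · refine hB.flt.up _ h _ ?_
        refine le_iInf fun t => ?_
        rw [compl_le_iff_compl_le]
        refine le_trans ?_ (le_iSup (fun w => V11 F 1 [wg, wa, wβ] w) (wth t))
        simp [V11, wth]
      · simp only [V11, List.getD_cons_zero, List.getD_cons_succ] at h
        have hth : HT H w.th := ⟨w, hw, rfl⟩
        refine absurd h (not_compl hB.flt (bihimp_mem hB.flt ?_ ?_ ?_))
        · exact hB.decm _ _ (hB.chk _ hth) haN
        · exact ydec _ _ ⟨wβ, hwβ, rfl⟩ hth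
        · rw [← hay _ hth, hB.mem _ _ (hB.chk _ hth) haN]
          rfl
    exact hB.flt.up _ (hB.flt.inf _ hall _ hX1) _ (IsX_congr F _ _)
  have hlg : ∀ x ∈ [wg], x ∈ H := by intro x hx; rw [List.mem_singleton.1 hx]; exact hwg
  have hallX : (⨅ β, IsX F (y11 wg.nm β)) ∈ G := by
    rcases hG 2 [wg] hlg with h | ⟨w, hw, h⟩
    · refine hB.flt.up _ h _ ?_
      refine le_iInf fun t => ?_
      rw [compl_le_iff_compl_le]
      refine le_trans ?_ (le_iSup (fun w => V11 F 2 [wg] w) (wth t))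
      simp [V11, wth]
    · simp only [V11, List.getD_cons_zero] at h
      exact absurd h (not_compl hB.flt (yX _ ⟨w, hw, rfl⟩))
  obtain ⟨w, hw, hwT⟩ := wit hB.flt hG 3 [wg] hlg hallX (by
    refine (hS.p7 (y11 wg.nm)).trans ?_
    refine iSup₂_le fun α z => ?_
    exact le_iSup (fun w => V11 F 3 [wg] w) { (default : Wd B) with th := α, zz := z })
  simp only [V11, List.getD_cons_zero] at hwT
  have hth : HT H w.th := ⟨w, hw, rfl⟩
  have hzN : HN H (CTD.pt w.zz) := hX.pt _ ⟨w, hw, rfl⟩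
  have htr : tr (CTD.pt w.zz) = w.zz := funext fun α => hpt w.zz α
  have hsub : Sub E (π (CTD.pt w.zz)) (π W2n) := by
    intro m hm
    obtain ⟨a, ha, rfl⟩ := hB.surj m
    have := (hB.mem _ _ ha hzN).1 hm
    refine (hB.mem _ _ ha hB.w2).2 (hB.flt.up _ this _ ?_)
    rw [hpt', hW2]
    exact iSup_mono fun α => inf_le_right
  have hT1 : IsX F w.zz ∈ G := hB.flt.up _ hwT _ (inf_le_left.trans inf_le_left)
  have hT2 : (⨅ K : Finset Th, ⨆ β, ⨆ _ : β < w.th, agr K w.zz (y11 wg.nm β)) ∈ G :=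
    hB.flt.up _ hwT _ (inf_le_left.trans inf_le_right)
  have hT3 : (⨅ K : Finset Th, ⨆ β, ⨆ _ : w.th ≤ β, agr K w.zz (y11 wg.nm β)) ∈ G :=
    hB.flt.up _ hwT _ inf_le_right
  have hagree : ∀ (ks : List (Wd B)) β, (∀ k ∈ ks, k ∈ H) → HT H β →
      agr (kf ks) w.zz (y11 wg.nm β) ∈ G → ∀ a, HN H a →
      (∀ α, HT H α → (E (π (CTD.chk α)) (π a) ↔ y11 wg.nm β α ∈ G)) → ∀ k ∈ ks,
      (E (π (CTD.chk k.th)) (π (CTD.pt w.zz)) ↔ E (π (CTD.chk k.th)) (π a)) := by
    intro ks β hks hβ hG' a ha hay k hk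
    have hkH : HT H k.th := ⟨k, hks k hk, rfl⟩
    rw [hay _ hkH, hB.mem _ _ (hB.chk _ hkH) hzN, hpt]
    exact agr_mem hB.flt hG' (mem_kf hk)
  refine ⟨π (CTD.chk w.th), π (CTD.pt w.zz), chkW _ hth, ?_, ⟨hsub, fun K hK => ?_⟩,
    ⟨hsub, fun K hK => ?_⟩⟩
  · rw [hX.mem _ hzN, htr]
    exact ⟨hsub, hT1⟩
  · obtain ⟨ks, hks, hks'⟩ := exists_list hB K hK
    have hl : ∀ x ∈ wg :: w :: w :: ks, x ∈ H := by
      intro x hx
      simp only [List.mem_cons] at hx
      rcases hx with rfl | rfl | rfl | hx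
      · exact hwg
      · exact hw
      · exact hw
      · exact hks x hx
    have hc := hB.flt.up _ hT2 _ (iInf_le _ (kf ks))
    obtain ⟨u, hu, huG⟩ := wit hB.flt hG 4 (wg :: w :: w :: ks) hl hc (by
      refine iSup₂_le fun β hβ => ?_
      refine le_trans ?_ (le_iSup (fun u => V11 F 4 (wg :: w :: w :: ks) u) (wth β))
      simp [V11, wth, hβ])
    simp only [V11, List.getD_cons_zero, List.getD_cons_succ, List.tail_cons] at huG
    by_cases hlt : u.th < w.th
    · rw [if_pos hlt] at huG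
      have huth : HT H u.th := ⟨u, hu, rfl⟩
      obtain ⟨a, ha, hav, haX, hay⟩ := key _ huth
      refine ⟨π a, ⟨π (CTD.chk u.th), chkW _ huth, (hB.memchk _ hth _).2
        ⟨u.th, huth, hlt, rfl⟩, hav⟩, fun t ht => ?_⟩
      obtain ⟨k, hk, rfl⟩ := hks' t ht
      exact hagree ks _ hks huth huG a ha hay k hk
    · rw [if_neg hlt] at huG
      exact absurd huG hB.flt.bot
  · obtain ⟨ks, hks, hks'⟩ := exists_list hB K hK
    have hl : ∀ x ∈ wg :: w :: w :: ks, x ∈ H := by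
      intro x hx
      simp only [List.mem_cons] at hx
      rcases hx with rfl | rfl | rfl | hx
      · exact hwg
      · exact hw
      · exact hw
      · exact hks x hx
    have hc := hB.flt.up _ hT3 _ (iInf_le _ (kf ks))
    obtain ⟨u, hu, huG⟩ := wit hB.flt hG 5 (wg :: w :: w :: ks) hl hc (by
      refine iSup₂_le fun β hβ => ?_
      refine le_trans ?_ (le_iSup (fun u => V11 F 5 (wg :: w :: w :: ks) u) (wth β))
      simp [V11, wth, hβ])
    simp only [V11, List.getD_cons_zero, List.getD_cons_succ, List.tail_cons] at huG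
    by_cases hlt : w.th ≤ u.th
    · rw [if_pos hlt] at huG
      have huth : HT H u.th := ⟨u, hu, rfl⟩
      obtain ⟨a, ha, hav, haX, hay⟩ := key _ huth
      refine ⟨π a, ⟨π (CTD.chk u.th), chkW _ huth, fun hE => ?_, hav⟩, fun t ht => ?_⟩
      · obtain ⟨γ, hγ, hγlt, hγe⟩ := (hB.memchk _ hth _).1 hE
        have := hB.inj _ _ huth hγ hγe
        subst this
        exact absurd hγlt (not_lt.2 hlt)
      · obtain ⟨k, hk, rfl⟩ := hks' t ht
        exact hagree ks _ hks huth huG a ha hay k hk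
    · rw [if_neg hlt] at huG
      exact absurd huG hB.flt.bot

end

end Pool.Agent.CTD.H50
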