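import Mathlib
import Pool.Agent.Helper50_CTD.ETools

/-!
# E12: the cardinality of the space
-/

open Set

namespace Pool.Agent.CTD.H50

open Pool.Agent.FL

section

variable {B : Type 1} [CompleteBooleanAlgebra B]

/-- the value used for the injection -/
noncomputable def y12 (F : Br → Th → B) (g : BSet B) (b : Br) (ξ : Th) : B :=
  ⨆ x : BSet B, bmem (opr (pt (F b)) x) g ⊓ bmem (chk ξ) x

open Classical in
/-- the family -/
noncomputable def V12 (F : Br → Th → B) (bb bb' : (Br → Th → B) → Br) :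
    Fin 3 → List (Wd B) → Wd B → B
  | 0, l, w => if w.br = bb (y12 F (l.getD 0 default).nm) then ⊤ else ⊥
  | 1, l, w => if w.br = bb' (y12 F (l.getD 0 default).nm) then ⊤ else ⊥
  | 2, l, w => bmem (opr (pt (F (l.getD 1 default).br)) w.nm) (l.getD 0 default).nm ⊓
      bmem (chk (l.getD 2 default).th) w.nm

theorem e12 (h1 : E1Nm) (h3 : E3De) (h7 : E7Xb) : E12Ca := by
  intro B _ F α0 d J hS
  have hp6 := hS.p6
  choose bb bb' hbne hbyy using hp6
  refine Mod.use (h7 B F) (V12 F bb bb') fun H G M E π hB hX hG Q hQ hinj => ?_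
  obtain ⟨-, -, -, -, -, -, -, -, -, -, h11, -⟩ := h1 B
  obtain ⟨e1, e2, eapp, eagr, eext⟩ := h3 B H G M E π hB
  obtain ⟨f, hf, hfi⟩ := hinj
  obtain ⟨g, hg, rfl⟩ := hB.surj f
  obtain ⟨wg, hwg, rfl⟩ := hg
  have hlg : ∀ x ∈ [wg], x ∈ H := by intro x hx; rw [List.mem_singleton.1 hx]; exact hwg
  -- the two branches
  obtain ⟨w, hw, hwb⟩ := opmem hB.flt hG 0 [wg] hlg Wd.br
    (bb (y12 F wg.nm)) (wbr (bb (y12 F wg.nm))) (by simp [V12, wbr]) (by
      intro w hw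
      simp only [V12, List.getD_cons_zero]
      exact if_neg hw)
  obtain ⟨w', hw', hwb'⟩ := opmem hB.flt hG 1 [wg] hlg Wd.br
    (bb' (y12 F wg.nm)) (wbr (bb' (y12 F wg.nm))) (by simp [V12, wbr]) (by
      intro w hw
      simp only [V12, List.getD_cons_zero]
      exact if_neg hw)
  have hne := hbne (y12 F wg.nm)
  have hyy := hbyy (y12 F wg.nm)
  rw [← hwb, ← hwb'] at hne hyy
  -- values
  have key : ∀ u ∈ H, ∃ v, App E (π wg.nm) (π (CTD.pt (F u.br))) v ∧ E v Q ∧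
      ∀ ξ, HT H ξ → (E (π (CTD.chk ξ)) v ↔ y12 F wg.nm u.br ξ ∈ G) := by
    intro u hu
    have hub : HB H u.br := ⟨u, hu, rfl⟩
    obtain ⟨v, hv, hvQ, hvu⟩ := fun_val h3 hB hf (hX.memF u.br hub)
    refine ⟨v, hv, hvQ, fun ξ hξ => ?_⟩
    obtain ⟨a, ha, rfl⟩ := hB.surj v
    constructor
    · intro hE
      have e3 := (hB.mem _ _ (hB.chk ξ hξ) ha).1 hE
      have e4 := (eapp _ _ _ ⟨wg, hwg, rfl⟩ (hX.ptF u.br hub) ha).1 hv
      refine hB.flt.up _ (hB.flt.inf _ e4 _ e3) _ ?_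
      exact le_iSup (fun x => bmem (opr (CTD.pt (F u.br)) x) wg.nm ⊓ bmem (CTD.chk ξ) x) a
    · intro hy
      obtain ⟨wξ, hwξ, rfl⟩ := hξ
      obtain ⟨x, hx, hxG⟩ := wit hB.flt hG 2 [wg, u, wξ] (by
        intro x hx
        simp only [List.mem_cons, List.not_mem_nil, or_false] at hx
        rcases hx with rfl | rfl | rfl <;> assumption) hy (by
          refine iSup_le fun a => ?_
          exact le_iSup (fun w => V12 F bb bb' 2 [wg, u, wξ] w) (wnm a))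
      simp only [V12, List.getD_cons_zero, List.getD_cons_succ] at hxG
      have hxN : HN H x.nm := ⟨x, hx, rfl⟩
      have e4 := (eapp _ _ _ ⟨wg, hwg, rfl⟩ (hX.ptF u.br hub) hxN).2
        (hB.flt.up _ hxG _ inf_le_left)
      have e5 := (hB.mem _ _ (hB.chk wξ.th ⟨wξ, hwξ, rfl⟩) hxN).2
        (hB.flt.up _ hxG _ inf_le_right)
      rw [hvu _ e4] at e5
      exact e5
  obtain ⟨v, hv, hvQ, hvE⟩ := key w hw
  obtain ⟨v', hv', hvQ', hvE'⟩ := key w' hw'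
  have hsub := (hQ v).1 hvQ
  have hsub' := (hQ v').1 hvQ'
  have hvv : v = v' := by
    refine eext v v' fun m => ⟨fun hm => ?_, fun hm => ?_⟩
    · obtain ⟨ξ, hξ, hξ1, rfl⟩ := (hB.memchk o1 hB.o1 m).1 (hsub m hm)
      rw [hvE ξ hξ, hyy ξ hξ1] at hm
      exact (hvE' ξ hξ).2 hm
    · obtain ⟨ξ, hξ, hξ1, rfl⟩ := (hB.memchk o1 hB.o1 m).1 (hsub' m hm)
      rw [hvE' ξ hξ, ← hyy ξ hξ1] at hm
      exact (hvE ξ hξ).2 hm
  subst hvv
  have hxx := hfi _ _ _ hv hv'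
  rw [hB.eqv _ _ (hX.ptF _ ⟨w, hw, rfl⟩) (hX.ptF _ ⟨w', hw', rfl⟩), h11] at hxx
  obtain ⟨α, hα⟩ := hS.p1 _ _ hne
  have := hB.flt.up _ hxx _ (iInf_le _ α)
  rw [hα] at this
  exact hB.flt.bot this

end

end Pool.Agent.CTD.H50
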